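import Pool.Agent.H84.LSB.TargetsHL

/-! Row OWI of hlm_modules: integral of the weights. -/

set_option autoImplicit false

namespace Pool.Agent.H44.HLM

open MeasureTheory Set Pool.Agent.H83.G Pool.Agent.H88.B2 Pool.Agent.H84.LSB
open scoped ENNReal NNReal RealInnerProductSpace

private instance haarY {m : ℕ} : (volume : Measure (E m × ℝ)).IsAddHaarMeasure :=
  inferInstanceAs ((volume : Measure (E m)).prod (volume : Measure ℝ)).IsAddHaarMeasure

private instance haarZ {m : ℕ} : (volume : Measure (Z m)).IsAddHaarMeasure :=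
  inferInstanceAs ((volume : Measure ℝ).prod (volume : Measure (E m × ℝ))).IsAddHaarMeasure

lemma lint_smul {m : ℕ} (r : ℝ) (hr : 0 < r) (F : Z m → ℝ≥0∞) :
    ∫⁻ z, F (r • z) = ENNReal.ofReal ((r⁻¹) ^ (m + 2)) * ∫⁻ z, F z := by
  have h1 : ∫⁻ y, F y ∂(Measure.map (r • ·) (volume : Measure (Z m))) = ∫⁻ z, F (r • z) :=
    (measurableEmbedding_const_smul₀ hr.ne').lintegral_map F
  have h2 := Measure.map_addHaar_smul (volume : Measure (Z m)) hr.ne'
  have h3 : Module.finrank ℝ (Z m) = m + 2 := by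
    simp only [Z, E, Module.finrank_prod, Module.finrank_self, finrank_euclideanSpace,
      Fintype.card_fin]
    omega
  rw [← h1, h2, lintegral_smul_measure, h3, smul_eq_mul, inv_pow]
  congr 2
  exact abs_of_pos (by positivity)

lemma lint_one (w : ℝ) (hw : 0 < w) (N : ℕ) (hN : 2 ≤ N) :
    ∫⁻ x : ℝ, ENNReal.ofReal (((1 + |w * x|) ^ N)⁻¹) ≤
      ENNReal.ofReal w⁻¹ * ∫⁻ x : ℝ, ENNReal.ofReal (((1 + |x|) ^ 2)⁻¹) := by
  have h1 : ∫⁻ y : ℝ, ENNReal.ofReal (((1 + |y|) ^ 2)⁻¹)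
      ∂(Measure.map (w • ·) (volume : Measure ℝ)) =
      ∫⁻ x : ℝ, ENNReal.ofReal (((1 + |w • x|) ^ 2)⁻¹) :=
    (measurableEmbedding_const_smul₀ hw.ne').lintegral_map
      (fun y : ℝ => ENNReal.ofReal (((1 + |y|) ^ 2)⁻¹))
  have h2 := Measure.map_addHaar_smul (volume : Measure ℝ) hw.ne'
  rw [h2, lintegral_smul_measure, Module.finrank_self, pow_one, smul_eq_mul,
    abs_of_pos (inv_pos.2 hw)] at h1
  rw [h1]
  refine lintegral_mono fun x => ENNReal.ofReal_le_ofReal ?_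
  rw [smul_eq_mul]
  gcongr
  · linarith [abs_nonneg (w * x)]

theorem pf_OWI (hLOI : T_LOI) : T_OWI := by
  intro m N hN
  set K1 : ℝ≥0∞ := ∫⁻ x : ℝ, ENNReal.ofReal (((1 + |x|) ^ 2)⁻¹) with hK1
  set K2 : ℝ≥0∞ := ∫⁻ u : E m × ℝ, ENNReal.ofReal (((1 + ‖u‖) ^ N)⁻¹) with hK2
  have hK1f : K1 < ⊤ := by
    have h := finite_integral_one_add_norm (E := ℝ) (μ := volume) (r := 2)
      (by rw [Module.finrank_self]; norm_num)
    refine lt_of_le_of_lt (lintegral_mono fun x => ENNReal.ofReal_le_ofReal ?_) h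
    have h0 : (0 : ℝ) ≤ 1 + |x| := by positivity
    rw [Real.norm_eq_abs, Real.rpow_neg h0]
    norm_num
  have hK2f : K2 < ⊤ := by
    have h3 : Module.finrank ℝ (E m × ℝ) = m + 1 := by
      simp only [E, Module.finrank_prod, Module.finrank_self, finrank_euclideanSpace,
        Fintype.card_fin]
    have h := finite_integral_one_add_norm (E := E m × ℝ) (μ := volume) (r := (N : ℝ))
      (by rw [h3]; exact_mod_cast (by omega : m + 1 < N))
    refine lt_of_le_of_lt (lintegral_mono fun x => ENNReal.ofReal_le_ofReal ?_) h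
    have h0 : (0 : ℝ) ≤ 1 + ‖x‖ := by positivity
    rw [Real.rpow_neg h0, Real.rpow_natCast]
  refine ⟨1 + K1.toReal * K2.toReal, by
    have := mul_nonneg (ENNReal.toReal_nonneg (a := K1)) (ENNReal.toReal_nonneg (a := K2))
    linarith, ?_⟩
  intro R δ w W hR hδ hw
  have hR0 : 0 < R := by linarith
  have hs : 0 < sR R := by
    unfold sR
    exact inv_pos.2 (Real.sqrt_pos.2 hR0)
  have hr : 0 < R ^ (-δ) := Real.rpow_pos_of_pos hR0 _
  have hq : 0 < R ^ δ / w := div_pos (Real.rpow_pos_of_pos hR0 _) hw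
  let g : Z m → ℝ := fun x =>
    ((1 + |(R ^ δ / w) * x.1|) ^ N)⁻¹ * ((1 + ‖x.2‖) ^ N)⁻¹
  have e1 : ∫⁻ z, ENNReal.ofReal (ww N R δ w W z) =
      ENNReal.ofReal (((sR R)⁻¹) ^ (m + 2)) *
        ∫⁻ y : Z m, ENNReal.ofReal (g (R ^ (-δ) • y - zc W.2)) := by
    have := (hLOI m (ctr (sR R) W.1) (sR R) hs).1
      (fun y => ENNReal.ofReal (g (R ^ (-δ) • y - zc W.2)))
    rw [← this]
    rfl
  have e2 : ∫⁻ y : Z m, ENNReal.ofReal (g (R ^ (-δ) • y - zc W.2)) =
      ENNReal.ofReal (((R ^ (-δ))⁻¹) ^ (m + 2)) * ∫⁻ y : Z m, ENNReal.ofReal (g y) := by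
    rw [lint_smul (R ^ (-δ)) hr (fun y => ENNReal.ofReal (g (y - zc W.2)))]
    congr 1
    exact lintegral_sub_right_eq_self (fun y => ENNReal.ofReal (g y)) (zc W.2)
  have e3 : ∫⁻ y : Z m, ENNReal.ofReal (g y) ≤ ENNReal.ofReal (R ^ δ / w)⁻¹ * K1 * K2 := by
    have hm1 : Measurable fun x : ℝ => ENNReal.ofReal (((1 + |(R ^ δ / w) * x|) ^ N)⁻¹) := by
      fun_prop
    have hm2 : Measurable fun u : E m × ℝ => ENNReal.ofReal (((1 + ‖u‖) ^ N)⁻¹) := by
      fun_prop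
    have h1 : ∫⁻ y : Z m, ENNReal.ofReal (g y) =
        (∫⁻ x : ℝ, ENNReal.ofReal (((1 + |(R ^ δ / w) * x|) ^ N)⁻¹)) * K2 := by
      have := lintegral_prod_mul (μ := (volume : Measure ℝ))
        (ν := (volume : Measure (E m × ℝ))) hm1.aemeasurable hm2.aemeasurable
      rw [hK2, ← this]
      refine lintegral_congr fun y => ?_
      exact ENNReal.ofReal_mul (by positivity)
    rw [h1]
    gcongr
    exact lint_one _ hq N (by omega)
  rw [e1, e2]
  refine (mul_le_mul_right (mul_le_mul_right e3 _) _).trans ?_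
  have hK1e : K1 = ENNReal.ofReal K1.toReal := (ENNReal.ofReal_toReal hK1f.ne).symm
  have hK2e : K2 = ENNReal.ofReal K2.toReal := (ENNReal.ofReal_toReal hK2f.ne).symm
  rw [hK1e, hK2e, ← ENNReal.ofReal_mul (by positivity), ← ENNReal.ofReal_mul (by positivity),
    ← ENNReal.ofReal_mul (by positivity), ← ENNReal.ofReal_mul (by positivity),
    ENNReal.toReal_ofReal ENNReal.toReal_nonneg, ENNReal.toReal_ofReal ENNReal.toReal_nonneg]
  refine ENNReal.ofReal_le_ofReal ?_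
  have f1 : ((sR R)⁻¹) ^ (m + 2) = R ^ (((m : ℝ) + 2) / 2) := by
    unfold sR
    rw [inv_inv, Real.sqrt_eq_rpow, ← Real.rpow_natCast, ← Real.rpow_mul hR0.le]
    congr 1
    push_cast
    ring
  have f2 : ((R ^ (-δ))⁻¹) ^ (m + 2) = R ^ (δ * ((m : ℝ) + 1)) * R ^ δ := by
    rw [Real.rpow_neg hR0.le, inv_inv, ← Real.rpow_natCast, ← Real.rpow_mul hR0.le,
      ← Real.rpow_add hR0]
    congr 1
    push_cast
    ring
  rw [f1, f2, inv_div]
  have hRd : (R ^ δ) ≠ 0 := (Real.rpow_pos_of_pos hR0 _).ne'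
  have hP : 0 ≤ R ^ (((m : ℝ) + 2) / 2) * R ^ (δ * ((m : ℝ) + 1)) * w := by positivity
  calc R ^ (((m : ℝ) + 2) / 2) * (R ^ (δ * ((m : ℝ) + 1)) * R ^ δ *
        (w / R ^ δ * K1.toReal * K2.toReal))
      = (R ^ (((m : ℝ) + 2) / 2) * R ^ (δ * ((m : ℝ) + 1)) * w) *
        (K1.toReal * K2.toReal) := by
        field_simp
    _ ≤ (R ^ (((m : ℝ) + 2) / 2) * R ^ (δ * ((m : ℝ) + 1)) * w) *
        (1 + K1.toReal * K2.toReal) := by
        gcongr
        linarith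
    _ = _ := by ring

end Pool.Agent.H44.HLM
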